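import Pool.Agent.Lib.helper83.TwoStack

namespace Pool.Agent.Lib.helper83

/-- Solvability of an extended Post correspondence instance. -/
def Sol {X : Type} (D : Set (List X × List X)) (init x y : List X) : Prop :=
  ∃ s : List (List X × List X), (∀ c ∈ s, c ∈ D) ∧
    s.flatMap Prod.fst ++ x = init ++ s.flatMap Prod.snd ++ y

lemma split_unique {X : Type} {m : X} : ∀ {p p' q q' : List X}, m ∉ p' → m ∉ q' →
    p ++ m :: q = p' ++ m :: q' → p = p' ∧ q = q'
  | [], [], q, q', _, _, h => by simpa using h
  | [], a :: p', q, q', h1, _, h => by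
    simp only [List.nil_append, List.cons_append, List.cons.injEq] at h
    exact absurd (by simp [h.1]) h1
  | a :: p, [], q, q', _, h2, h => by
    simp only [List.nil_append, List.cons_append, List.cons.injEq] at h
    exact absurd (by simp [← h.2]) h2
  | a :: p, b :: p', q, q', h1, h2, h => by
    simp only [List.cons_append, List.cons.injEq] at h
    have := split_unique (fun h => h1 (List.mem_cons_of_mem _ h)) h2 h.2
    exact ⟨by rw [h.1, this.1], this.2⟩

lemma first_unique {X : Type} {m : X} : ∀ {p p' q q' : List X}, m ∉ p → m ∉ p' →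
    p ++ m :: q = p' ++ m :: q' → p = p' ∧ q = q'
  | [], [], q, q', _, _, h => by simpa using h
  | [], a :: p', q, q', _, h1, h => by
    simp only [List.nil_append, List.cons_append, List.cons.injEq] at h
    exact absurd (by simp [h.1]) h1
  | a :: p, [], q, q', h2, _, h => by
    simp only [List.nil_append, List.cons_append, List.cons.injEq] at h
    exact absurd (by simp [h.1]) h2
  | a :: p, b :: p', q, q', h1, h2, h => by
    simp only [List.cons_append, List.cons.injEq] at h
    have := first_unique (fun h => h1 (List.mem_cons_of_mem _ h))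
      (fun h => h2 (List.mem_cons_of_mem _ h)) h.2
    exact ⟨by rw [h.1, this.1], this.2⟩

lemma pre_of_not_mem {X : Type} {m : X} : ∀ {u x p q : List X}, m ∉ u →
    u ++ p = x ++ m :: q → ∃ x', x = u ++ x' ∧ p = x' ++ m :: q
  | [], x, p, q, _, h => ⟨x, rfl, h⟩
  | a :: u, [], p, q, h1, h => by
    simp only [List.nil_append, List.cons_append, List.cons.injEq] at h
    exact absurd (by simp [h.1]) h1
  | a :: u, b :: x, p, q, h1, h => by
    simp only [List.cons_append, List.cons.injEq] at h
    obtain ⟨x', h2, h3⟩ := pre_of_not_mem (fun h => h1 (List.mem_cons_of_mem _ h)) h.2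
    exact ⟨x', by rw [h.1, h2]; rfl, h3⟩

inductive Zs
  | b (x : Bool)
  | lb
  | mid
  | rb
  | hs
  deriving DecidableEq, Fintype

def cfg (A B : List Bool) : List Zs := .lb :: B.reverse.map .b ++ .mid :: A.map .b ++ [.rb]

lemma b_inj : Function.Injective Zs.b := fun _ _ h => Zs.b.inj h

lemma cfg_inj {A B A' B' : List Bool} (h : cfg A B = cfg A' B') : A = A' ∧ B = B' := by
  unfold cfg at h
  simp only [List.cons_append, List.append_assoc, List.cons.injEq, true_and] at h
  obtain ⟨h1, h2⟩ := split_unique (by simp) (by simp) h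
  exact ⟨(List.map_injective_iff.mpr b_inj) (List.append_cancel_right h2),
    List.reverse_injective ((List.map_injective_iff.mpr b_inj) h1)⟩

section

variable (AB BA : Set (List Bool × List Bool)) (pad : List Bool)

inductive Rw : List Zs × List Zs → Prop
  | padA : Rw (pad.map .b ++ [.rb], [.rb])
  | padB : Rw (.lb :: pad.reverse.map .b, [.lb])
  | ab {x y} : (x, y) ∈ AB → Rw (y.reverse.map .b ++ [.mid], .mid :: x.map .b)
  | ba {x y} : (x, y) ∈ BA → Rw (.mid :: y.map .b, x.reverse.map .b ++ [.mid])

lemma suf_map {y : List Zs} {a : Zs} {l B : List Bool} (ha : ∀ t, a ≠ .b t)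
    (h : y ++ l.map .b = a :: B.map .b) : ∃ B1, B = B1 ++ l ∧ y = a :: B1.map .b := by
  cases y with
  | nil =>
    cases l with
    | nil => simp at h
    | cons t l => simp only [List.nil_append, List.map_cons, List.cons.injEq] at h
                  exact absurd h.1.symm (ha t)
  | cons a' y =>
    simp only [List.cons_append, List.cons.injEq] at h
    obtain ⟨l1, l2, h1, h2, h3⟩ := List.map_eq_append_iff.mp h.2.symm
    exact ⟨l1, by rw [h1, (List.map_injective_iff.mpr b_inj) h3], by rw [h.1, h2]⟩

lemma pre_map {y : List Zs} {a : Zs} {l B : List Bool} (ha : ∀ t, a ≠ .b t)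
    (h : l.map .b ++ y = B.map .b ++ [a]) : ∃ B1, B = l ++ B1 ∧ y = B1.map .b ++ [a] := by
  have h' := congrArg List.reverse h
  simp only [List.reverse_append, ← List.map_reverse, List.reverse_cons, List.reverse_nil,
    List.nil_append, List.singleton_append] at h'
  obtain ⟨B1, h1, h2⟩ := suf_map ha h'
  refine ⟨B1.reverse, ?_, ?_⟩
  · simpa using congrArg List.reverse h1
  · simpa using congrArg List.reverse h2

lemma rw_sound {u v p q : List Zs} (hr : Rw AB BA pad (u, v)) {A B : List Bool}
    (h : p ++ u ++ q = cfg A B) (ha : Acc AB BA pad A B) :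
    ∃ A' B', p ++ v ++ q = cfg A' B' ∧ Acc AB BA pad A' B' := by
  generalize hc : (u, v) = c at hr
  cases hr with
  | padA =>
    obtain ⟨rfl, rfl⟩ := Prod.mk.inj hc
    have h' : (p ++ pad.map .b) ++ Zs.rb :: q =
        (.lb :: B.reverse.map .b ++ .mid :: A.map .b) ++ Zs.rb :: [] := by
      simpa [cfg] using h
    obtain ⟨h1, rfl⟩ := split_unique (by simp) (by simp) h'
    have h2 := congrArg List.reverse h1
    simp only [List.reverse_append, List.reverse_cons, ← List.map_reverse, List.append_assoc,
      List.cons_append] at h2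
    obtain ⟨x', h3, h4⟩ := pre_of_not_mem (m := Zs.mid) (by simp) h2
    obtain ⟨l1, l2, h5, h6, h7⟩ := List.map_eq_append_iff.mp h3
    have h8 := (List.map_injective_iff.mpr b_inj) h6
    refine ⟨l2.reverse, B, ?_, .padA ?_⟩
    · have := congrArg List.reverse h4
      rw [List.reverse_reverse] at this
      simp [this, cfg, ← h7]
    · have : A = l2.reverse ++ pad := by
        simpa [h8] using congrArg List.reverse h5
      rwa [← this]
  | padB =>
    obtain ⟨rfl, rfl⟩ := Prod.mk.inj hc
    have h' : p ++ Zs.lb :: (pad.reverse.map .b ++ q) =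
        [] ++ Zs.lb :: (B.reverse.map .b ++ .mid :: (A.map .b ++ [.rb])) := by
      simpa [cfg] using h
    obtain ⟨rfl, h1⟩ := split_unique (by simp) (by simp) h'
    obtain ⟨x', h3, h4⟩ := pre_of_not_mem (m := Zs.mid) (by simp) h1
    obtain ⟨l1, l2, h5, h6, h7⟩ := List.map_eq_append_iff.mp h3
    have h8 := (List.map_injective_iff.mpr b_inj) h6
    refine ⟨A, l2.reverse, ?_, .padB ?_⟩
    · simp [h4, cfg, ← h7]
    · have : B = l2.reverse ++ pad := by
        simpa [h8] using congrArg List.reverse h5
      rwa [← this]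
  | @ab x y hxy =>
    obtain ⟨rfl, rfl⟩ := Prod.mk.inj hc
    have h' : (p ++ y.reverse.map .b) ++ Zs.mid :: q =
        (.lb :: B.reverse.map .b) ++ Zs.mid :: (A.map .b ++ [.rb]) := by
      simpa [cfg] using h
    obtain ⟨h1, rfl⟩ := split_unique (by simp) (by simp) h'
    obtain ⟨B1, h2, rfl⟩ := suf_map (by simp) h1
    refine ⟨x ++ A, B1.reverse, by simp [cfg], .ab hxy ?_⟩
    have : B = y ++ B1.reverse := by simpa using congrArg List.reverse h2
    rwa [← this]
  | @ba x y hxy =>
    obtain ⟨rfl, rfl⟩ := Prod.mk.inj hc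
    have h' : p ++ Zs.mid :: (y.map .b ++ q) =
        (.lb :: B.reverse.map .b) ++ Zs.mid :: (A.map .b ++ [.rb]) := by
      simpa [cfg] using h
    obtain ⟨rfl, h1⟩ := split_unique (by simp) (by simp) h'
    obtain ⟨A1, rfl, rfl⟩ := pre_map (by simp) h1
    exact ⟨A1, x ++ B, by simp [cfg], .ba hxy ha⟩

/-- the cards -/
def Cards : Set (List Zs × List Zs) := {c | Rw AB BA pad c} ∪ Set.range fun a => ([a], [a])

lemma hs_cfg (A B : List Bool) : Zs.hs ∉ cfg A B := by simp [cfg]

lemma pcp_sound (al : List Zs) (hal : Zs.hs ∉ al) : ∀ (s : List (List Zs × List Zs)),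
    (∀ c ∈ s, c ∈ Cards AB BA pad) → ∀ x y A B, y ++ x = cfg A B → Acc AB BA pad A B →
    s.flatMap Prod.fst ++ (al ++ [.hs]) = x ++ .hs :: y ++ s.flatMap Prod.snd →
    ∃ A B, al = cfg A B ∧ Acc AB BA pad A B
  | [], _, x, y, A, B, h1, h2, h3 => by
    have hx : Zs.hs ∉ x := fun h => hs_cfg A B (by rw [← h1]; simp [h])
    have := first_unique hal hx (by simpa using h3)
    refine ⟨A, B, ?_, h2⟩
    rw [← h1, this.1, ← this.2]; rfl
  | (u, v) :: s, hs, x, y, A, B, h1, h2, h3 => by
    have hs' : ∀ c ∈ s, c ∈ Cards AB BA pad := fun c hc => hs c (List.mem_cons_of_mem _ hc)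
    have hx : Zs.hs ∉ x := fun h => hs_cfg A B (by rw [← h1]; simp [h])
    simp only [List.flatMap_cons, List.append_assoc, List.cons_append] at h3
    have key : Zs.hs ∉ u → (∀ q, y ++ u ++ q = cfg A B →
        ∃ A' B', y ++ v ++ q = cfg A' B' ∧ Acc AB BA pad A' B') →
        ∃ A B, al = cfg A B ∧ Acc AB BA pad A B := by
      intro hu H
      obtain ⟨x', rfl, h4⟩ := pre_of_not_mem hu h3
      obtain ⟨A', B', h5, h6⟩ := H x' (by simpa using h1)
      exact pcp_sound al hal s hs' x' (y ++ v) A' B' h5 h6 (by simpa using h4)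
    rcases hs (u, v) (by simp) with hr | ⟨a, ha⟩
    · refine key ?_ fun q hq => rw_sound AB BA pad hr hq h2
      generalize hc : (u, v) = c at hr
      cases hr <;> obtain ⟨rfl, rfl⟩ := Prod.mk.inj hc <;> simp
    · obtain ⟨rfl, rfl⟩ := Prod.mk.inj ha
      by_cases hh : a = .hs
      · subst hh
        have := first_unique (p := []) (by simp) hx (by simpa using h3)
        refine pcp_sound al hal s hs' y [] A B (by simpa [← this.1] using h1) h2 ?_
        simpa using this.2
      · exact key (by simpa using Ne.symm hh) fun q hq => ⟨A, B, hq, h2⟩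

lemma pcp_complete {A B : List Bool} (h : Acc AB BA pad A B) :
    Sol (Cards AB BA pad) (cfg [] [] ++ [.hs]) (cfg A B ++ [.hs]) [] := by
  have key : ∀ p u v q, Rw AB BA pad (u, v) →
      Sol (Cards AB BA pad) (cfg [] [] ++ [.hs]) (p ++ u ++ q ++ [.hs]) [] →
      Sol (Cards AB BA pad) (cfg [] [] ++ [.hs]) (p ++ v ++ q ++ [.hs]) [] := by
    rintro p u v q hr ⟨s, hs, he⟩
    have e1 : ∀ l : List Zs, (l.map fun a => ([a], [a])).flatMap Prod.fst = l := by
      intro l; induction l <;> simp_all
    have e2 : ∀ l : List Zs, (l.map fun a => ([a], [a])).flatMap Prod.snd = l := by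
      intro l; induction l <;> simp_all
    refine ⟨s ++ (p.map fun a => ([a], [a])) ++ [(u, v)] ++
      ((q ++ [Zs.hs]).map fun a => ([a], [a])), ?_, ?_⟩
    · intro c hc
      simp only [List.mem_append, List.mem_map, List.mem_singleton] at hc
      rcases hc with ((hc | ⟨a, -, rfl⟩) | rfl) | ⟨a, -, rfl⟩
      · exact hs c hc
      · exact Or.inr ⟨a, rfl⟩
      · exact Or.inl hr
      · exact Or.inr ⟨a, rfl⟩
    · simp only [List.flatMap_append, e1, e2, List.flatMap_cons, List.flatMap_nil,
        List.append_nil] at he ⊢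
      have := congrArg (· ++ (p ++ v ++ q ++ [Zs.hs])) he
      simpa using this
  induction h with
  | done => exact ⟨[], by simp, by simp⟩
  | @padA A B _ ih =>
    have := key (.lb :: B.reverse.map .b ++ .mid :: A.map .b) _ _ [] .padA
      (by simpa [cfg] using ih)
    simpa [cfg] using this
  | @padB A B _ ih =>
    have := key [] _ _ (B.reverse.map .b ++ .mid :: A.map .b ++ [.rb]) .padB
      (by simpa [cfg] using ih)
    simpa [cfg] using this
  | @ab x y A B hxy _ ih =>
    have := key (.lb :: B.reverse.map .b) _ _ (A.map .b ++ [.rb]) (.ab hxy)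
      (by simpa [cfg] using ih)
    simpa [cfg] using this
  | @ba x y A B hxy _ ih =>
    have := key (.lb :: B.reverse.map .b) _ _ (A.map .b ++ [.rb]) (.ba hxy)
      (by simpa [cfg] using ih)
    simpa [cfg] using this

lemma cards_finite (h1 : AB.Finite) (h2 : BA.Finite) : (Cards AB BA pad).Finite := by
  refine Set.Finite.union ?_ (Set.finite_range _)
  refine (((Set.finite_singleton (pad.map .b ++ [.rb], [.rb])).insert
    (.lb :: pad.reverse.map .b, [.lb])).union
    ((h1.image fun c => (c.2.reverse.map .b ++ [.mid], .mid :: c.1.map .b)).union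
    (h2.image fun c => (.mid :: c.2.map .b, c.1.reverse.map .b ++ [.mid])))).subset ?_
  intro c hc
  cases hc with
  | padA => simp
  | padB => simp
  | ab h => exact Or.inr (Or.inl ⟨_, h, rfl⟩)
  | ba h => exact Or.inr (Or.inr ⟨_, h, rfl⟩)

end

lemma cds_inj {X : Type} (ix : X → ℕ) (hix : Function.Injective ix) {x y : List X}
    (h : cds ix x = cds ix y) : x = y := by
  obtain ⟨y', h1, h2⟩ := cds_pre ix hix x y [] (by simpa using h)
  cases y' with
  | nil => simpa using h1.symm
  | cons a l => simp [cds, cd] at h2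

lemma sol_cds {X : Type} (ix : X → ℕ) (hix : Function.Injective ix)
    (D : Set (List X × List X)) (init x : List X) :
    Sol (Prod.map (cds ix) (cds ix) '' D) (cds ix init) (cds ix x) [] ↔ Sol D init x [] := by
  have e1 : ∀ s : List (List X × List X), (s.map (Prod.map (cds ix) (cds ix))).flatMap Prod.fst =
      cds ix (s.flatMap Prod.fst) := by
    intro s; induction s with
    | nil => rfl
    | cons c s ih => simp [cds_append, ih]
  have e2 : ∀ s : List (List X × List X), (s.map (Prod.map (cds ix) (cds ix))).flatMap Prod.snd =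
      cds ix (s.flatMap Prod.snd) := by
    intro s; induction s with
    | nil => rfl
    | cons c s ih => simp [cds_append, ih]
  constructor
  · rintro ⟨s, hs, he⟩
    obtain ⟨s', hs', rfl⟩ : ∃ s' : List (List X × List X), (∀ c ∈ s', c ∈ D) ∧
        s = s'.map (Prod.map (cds ix) (cds ix)) := by
      clear he
      induction s with
      | nil => exact ⟨[], by simp, rfl⟩
      | cons c s ih =>
        obtain ⟨s', h1, rfl⟩ := ih fun c hc => hs c (List.mem_cons_of_mem _ hc)
        obtain ⟨c', h2, rfl⟩ := hs c (by simp)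
        exact ⟨c' :: s', by simpa using ⟨h2, by simpa using h1⟩, rfl⟩
    refine ⟨s', hs', cds_inj ix hix ?_⟩
    rw [e1, e2] at he
    simpa [cds_append] using he
  · rintro ⟨s, hs, he⟩
    refine ⟨s.map (Prod.map (cds ix) (cds ix)), ?_, ?_⟩
    · intro c hc
      obtain ⟨c', h, rfl⟩ := List.mem_map.mp hc
      exact ⟨c', hs c' h, rfl⟩
    · rw [e1, e2, ← cds_append, he]; simp [cds_append]

/-- Every r.e. language has a binary extended Post correspondence representation. -/
theorem re_to_epcp {T : Type} [Primcodable T] (p : List T → Prop) (hp : REPred p) :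
    ∃ (D : Set (List Bool × List Bool)) (init pre post : List Bool) (ψ : T → List Bool),
      D.Finite ∧ ∀ w, p w ↔ Sol D init (pre ++ w.flatMap ψ ++ post) [] := by
  obtain ⟨AB, BA, pad, pre, ψ, h1, h2, h⟩ := re_to_twostack p hp
  let ix : Zs → ℕ := fun s => (Fintype.equivFin _ s : ℕ)
  have hix : Function.Injective ix := fun a b h => (Fintype.equivFin _).injective (Fin.ext h)
  refine ⟨Prod.map (cds ix) (cds ix) '' Cards AB BA pad, cds ix (cfg [] [] ++ [.hs]),
    cds ix (.lb :: .mid :: pre.map .b), cds ix [.rb, .hs], fun a => cds ix ((ψ a).map .b),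
    (cards_finite AB BA pad h1 h2).image _, fun w => ?_⟩
  have e : cds ix (.lb :: .mid :: pre.map .b) ++ w.flatMap (fun a => cds ix ((ψ a).map .b)) ++
      cds ix [.rb, .hs] = cds ix (cfg (pre ++ w.flatMap ψ) [] ++ [.hs]) := by
    simp [cds, cfg, List.flatMap_assoc, List.map_flatMap]
  rw [e, sol_cds ix hix, h w]
  refine ⟨pcp_complete AB BA pad, ?_⟩
  rintro ⟨s, hs, he⟩
  obtain ⟨A, B, h3, h4⟩ := pcp_sound AB BA pad _ (hs_cfg (pre ++ w.flatMap ψ) []) s hs
    (cfg [] []) [] [] [] rfl .done (by simpa using he)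
  obtain ⟨rfl, rfl⟩ := cfg_inj h3
  exact h4

end Pool.Agent.Lib.helper83
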