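import Mathlib

namespace Pool.Agent.Lib.helper83

open Turing Turing.PartrecToTM2

variable {T : Type} [Primcodable T]

/-- number whose binary digits spell a word -/
def num : List T → ℕ
  | [] => 1
  | a :: w => 2 ^ Encodable.encode a * (2 * num w + 1)

lemma num_pos (w : List T) : 0 < num w := by
  cases w <;> simp [num]

lemma two_pow_odd_inj : ∀ (e e' m m' : ℕ), 2 ^ e * (2 * m + 1) = 2 ^ e' * (2 * m' + 1) →
    e = e' ∧ m = m'
  | 0, 0, m, m', h => by omega
  | 0, e' + 1, m, m', h => by rw [pow_succ, mul_right_comm] at h; omega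
  | e + 1, 0, m, m', h => by rw [pow_succ, mul_right_comm] at h; omega
  | e + 1, e' + 1, m, m', h => by
    rw [pow_succ, pow_succ, mul_right_comm, mul_right_comm (2 ^ e')] at h
    have := two_pow_odd_inj e e' m m' (by omega)
    omega

lemma num_inj : ∀ w w' : List T, num w = num w' → w = w'
  | [], [], _ => rfl
  | [], a :: w, h => by
    have := two_pow_odd_inj 0 (Encodable.encode a) 0 (num w) (by simpa [num] using h)
    have := num_pos w; omega
  | a :: w, [], h => by
    have := two_pow_odd_inj 0 (Encodable.encode a) 0 (num w) (by simpa [num] using h.symm)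
    have := num_pos w; omega
  | a :: w, b :: w', h => by
    obtain ⟨h1, h2⟩ := two_pow_odd_inj _ _ _ _ h
    rw [Encodable.encode_injective h1, num_inj w w' h2]

lemma num_primrec : Primrec (num : List T → ℕ) := by
  have hpow : Primrec₂ (fun a b : ℕ => a ^ b) := Primrec₂.unpaired'.1 Nat.Primrec.pow
  have := Primrec.list_foldr (f := fun w : List T => w) (g := fun _ => 1)
    (h := fun _ (p : T × ℕ) => 2 ^ Encodable.encode p.1 * (2 * p.2 + 1)) Primrec.id
    (Primrec.const 1) (by
      refine Primrec.nat_mul.comp (hpow.comp (Primrec.const 2)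
        (Primrec.encode.comp (Primrec.fst.comp Primrec.snd))) ?_
      exact Primrec.succ.comp (Primrec.nat_mul.comp (Primrec.const 2)
        (Primrec.snd.comp Primrec.snd)))
  refine this.of_eq fun w => ?_
  induction w with
  | nil => rfl
  | cons a w ih => simp only [List.foldr_cons, ih, num]

lemma trNat_bit0 (n : ℕ) (hn : 0 < n) : trNat (2 * n) = Γ'.bit0 :: trNat n := by
  have h : ((2 * n : ℕ) : Num) = Num.bit0 (n : Num) := by
    apply Num.to_nat_inj.mp
    rw [Num.to_of_nat, Num.cast_bit0, Num.to_of_nat, two_mul]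
  unfold trNat
  rw [h]
  cases hp : (n : Num) with
  | zero =>
    have := congrArg (fun x : Num => (x : ℕ)) hp
    simp at this; omega
  | pos p => rfl

lemma trNat_bit1 (n : ℕ) (hn : 0 < n) : trNat (2 * n + 1) = Γ'.bit1 :: trNat n := by
  have h : ((2 * n + 1 : ℕ) : Num) = Num.bit1 (n : Num) := by
    apply Num.to_nat_inj.mp
    rw [Num.to_of_nat, Num.cast_bit1, Num.to_of_nat, two_mul]
  unfold trNat
  rw [h]
  cases hp : (n : Num) with
  | zero =>
    have := congrArg (fun x : Num => (x : ℕ)) hp
    simp at this; omega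
  | pos p => rfl

lemma trNat_num (w : List T) : trNat (num w) =
    w.flatMap (fun a => List.replicate (Encodable.encode a) Γ'.bit0 ++ [Γ'.bit1]) ++ [Γ'.bit1] := by
  induction w with
  | nil => simp [num, trNat, trNum, trPosNum]
  | cons a w ih =>
    have : ∀ e m : ℕ, 0 < m → trNat (2 ^ e * m) = List.replicate e Γ'.bit0 ++ trNat m := by
      intro e m hm
      induction e with
      | zero => simp
      | succ e ih => rw [pow_succ', mul_assoc, trNat_bit0 _ (by positivity), ih]; rfl
    rw [num, this _ _ (by positivity), trNat_bit1 _ (num_pos w), ih]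
    simp

lemma exists_code_dom (p : List T → Prop) (hp : REPred p) :
    ∃ c : ToPartrec.Code, ∀ w, (c.eval [num w.reverse]).Dom ↔ p w := by
  let s : ℕ → ℕ → Option (List T) := fun n m =>
    (Encodable.decode (α := List T) m).bind fun w => if num w.reverse = n then some w else none
  have hs : Computable₂ s := by
    refine Primrec.to_comp (Primrec.option_bind (Primrec.decode.comp Primrec.snd) ?_)
    refine Primrec.ite (Primrec.eq.comp (num_primrec.comp (Primrec.list_reverse.comp Primrec.snd))
      (Primrec.fst.comp Primrec.fst)) (Primrec.option_some.comp Primrec.snd) (Primrec.const none)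
  let g : ℕ →. ℕ := fun n => (Nat.rfindOpt (s n)).bind fun w =>
    (Part.assert (p w) fun _ => Part.some ()).map fun _ => 0
  have hg : Partrec g := (Partrec.rfindOpt hs).bind
    ((hp.map (Computable.const 0).to₂).comp Computable.snd)
  obtain ⟨c, hc⟩ := ToPartrec.Code.exists_code (Nat.Partrec'.part_iff₁.mpr hg)
  refine ⟨c, fun w => ?_⟩
  have := hc ⟨[num w.reverse], rfl⟩
  simp only at this
  rw [this]
  change (g (num w.reverse)).Dom ↔ _
  have hmem : w ∈ Nat.rfindOpt (s (num w.reverse)) := by
    have hd : (Nat.rfindOpt (s (num w.reverse))).Dom :=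
      Nat.rfindOpt_dom.mpr ⟨Encodable.encode w, w, by simp [s]⟩
    obtain ⟨w1, hw1⟩ := Part.dom_iff_mem.mp hd
    obtain ⟨m, hm⟩ := Nat.rfindOpt_spec hw1
    simp only [s, Option.mem_def, Option.bind_eq_some_iff] at hm
    obtain ⟨w', -, hw'⟩ := hm
    split_ifs at hw' with h
    have e : w' = w := List.reverse_injective (num_inj _ _ h)
    have e2 := Option.some.inj hw'
    rw [← e, e2]
    rw [← e, e2] at hw1
    exact hw1
  simp only [g, Part.eq_some_iff.mpr hmem, Part.bind_some]
  simp [Part.dom_iff_mem]

instance : Fintype K' := ⟨{K'.main, K'.rev, K'.aux, K'.stack}, by intro x; cases x <;> simp⟩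

/-- Every r.e. language is the halting set of a finitely supported Post-Turing machine on a
letter-by-letter encoding of the input. -/
theorem re_to_tm0 (p : List T → Prop) (hp : REPred p) :
    ∃ (Γ Λ : Type) (_ : Fintype Γ) (_ : Inhabited Γ) (_ : Inhabited Λ) (M : TM0.Machine Γ Λ)
      (S : Finset Λ) (pre : List Γ) (ψ : T → List Γ), TM0.Supports M (S : Set Λ) ∧
      ∀ w, p w ↔ (StateTransition.eval (TM0.step M) (TM0.init (pre ++ w.flatMap ψ))).Dom := by
  obtain ⟨c, hc⟩ := exists_code_dom p hp
  let _ : Inhabited Λ' := ⟨trNormal c Cont'.halt⟩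
  let φ : Γ' → TM2to1.Γ' K' (fun _ => Γ') := fun a =>
    (false, Function.update (fun _ => none) K'.main (some a))
  refine ⟨TM2to1.Γ' K' (fun _ => Γ'), TM1to0.Λ' (TM2to1.tr tr), inferInstance, inferInstance,
    inferInstance, TM1to0.tr (TM2to1.tr tr),
    TM1to0.trStmts _ (TM2to1.trSupp tr (codeSupp c Cont'.halt)),
    [(true, (φ Γ'.cons).2), φ Γ'.bit1],
    fun a => (Γ'.bit1 :: List.replicate (Encodable.encode a) Γ'.bit0).map φ,
    TM1to0.tr_supports _ (TM2to1.tr_supports tr (tr_supports c Cont'.halt)), fun w => ?_⟩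
  have h1 := TM1to0.tr_eval (TM2to1.tr tr) (TM2to1.trInit K'.main (trList [num w.reverse]))
  have h2 := TM2to1.tr_eval_dom tr K'.main (trList [num w.reverse])
  have h3 := tr_eval c [num w.reverse]
  have e : TM2.init K'.main (trList [num w.reverse]) = init c [num w.reverse] := by
    unfold TM2.init init
    congr 1
    funext k; cases k <;> rfl
  have e2 : TM2to1.trInit (Γ := fun _ => Γ') K'.main (trList [num w.reverse]) =
      ([(true, (φ Γ'.cons).2), φ Γ'.bit1] : List (TM2to1.Γ' K' fun _ => Γ')) ++ w.flatMap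
        fun a => (Γ'.bit1 :: List.replicate (Encodable.encode a) Γ'.bit0).map φ := by
    simp only [TM2to1.trInit, trList, trNat_num]
    simp [φ, List.reverse_flatMap, List.map_flatMap, Function.comp_def]
  rw [← hc, ← e2]
  have h4 : (TM0.eval (TM1to0.tr (TM2to1.tr tr))
      (TM2to1.trInit (Γ := fun _ => Γ') K'.main (trList [num w.reverse]))).Dom ↔ (c.eval [num w.reverse]).Dom := by
    rw [h1, h2, TM2.eval, e]
    change (StateTransition.eval (TM2.step tr) (init c [num w.reverse])).Dom ↔ _
    rw [h3]; rfl
  exact h4.symm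

end Pool.Agent.Lib.helper83
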