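import Pool.Agent.Lib.helper83.REtoTM0

namespace Pool.Agent.Lib.helper83

open Turing StateTransition

/-- Acceptance of a two-stack transfer system. -/
inductive Acc {X : Type} (AB BA : Set (List X × List X)) (pad : List X) : List X → List X → Prop
  | done : Acc AB BA pad [] []
  | padA {A B} : Acc AB BA pad (A ++ pad) B → Acc AB BA pad A B
  | padB {A B} : Acc AB BA pad A (B ++ pad) → Acc AB BA pad A B
  | ab {x y A B} : (x, y) ∈ AB → Acc AB BA pad A (y ++ B) → Acc AB BA pad (x ++ A) B
  | ba {x y A B} : (x, y) ∈ BA → Acc AB BA pad (y ++ A) B → Acc AB BA pad A (x ++ B)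

section coding

variable {X : Type} (ix : X → ℕ)

def cd (s : X) : List Bool := List.replicate (ix s) true ++ [false]

def cds (l : List X) : List Bool := l.flatMap (cd ix)

lemma cds_append (a b : List X) : cds ix (a ++ b) = cds ix a ++ cds ix b := by simp [cds]

lemma rep_inj : ∀ (m n : ℕ) (u v : List Bool),
    List.replicate m true ++ false :: u = List.replicate n true ++ false :: v → m = n ∧ u = v
  | 0, 0, u, v, h => by simpa using h
  | 0, n + 1, u, v, h => by simp [List.replicate_succ] at h
  | m + 1, 0, u, v, h => by simp [List.replicate_succ] at h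
  | m + 1, n + 1, u, v, h => by
    simp only [List.replicate_succ, List.cons_append, List.cons.injEq, true_and] at h
    have := rep_inj m n u v h
    exact ⟨by omega, this.2⟩

lemma cds_pre (hix : Function.Injective ix) : ∀ (x y : List X) (l : List Bool),
    cds ix x ++ l = cds ix y → ∃ y', y = x ++ y' ∧ l = cds ix y'
  | [], y, l, h => ⟨y, rfl, by simpa [cds] using h⟩
  | a :: x, [], l, h => by simp [cds, cd] at h
  | a :: x, b :: y, l, h => by
    simp only [cds, List.flatMap_cons, cd, List.append_assoc, List.singleton_append] at h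
    obtain ⟨h1, h2⟩ := rep_inj _ _ _ _ h
    obtain ⟨y', h3, h4⟩ := cds_pre hix x y l h2
    exact ⟨y', by rw [hix h1, h3]; rfl, h4⟩

lemma acc_cds (hix : Function.Injective ix) (AB BA : Set (List X × List X)) (pad A B : List X) :
    Acc (Prod.map (cds ix) (cds ix) '' AB) (Prod.map (cds ix) (cds ix) '' BA) (cds ix pad)
      (cds ix A) (cds ix B) ↔ Acc AB BA pad A B := by
  constructor
  · intro h
    have key : ∀ a b, Acc (Prod.map (cds ix) (cds ix) '' AB) (Prod.map (cds ix) (cds ix) '' BA)
        (cds ix pad) a b → ∀ A B, a = cds ix A → b = cds ix B → Acc AB BA pad A B := by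
      intro a b h
      induction h with
      | done =>
        intro A B h1 h2
        have e : ∀ A : List X, [] = cds ix A → A = [] := by
          intro A h; cases A with
          | nil => rfl
          | cons a A => simp [cds, cd] at h
        rw [e A h1, e B h2]; exact .done
      | padA _ ih =>
        rintro A B rfl rfl
        exact .padA (ih _ _ (cds_append ix _ _).symm rfl)
      | padB _ ih =>
        rintro A B rfl rfl
        exact .padB (ih _ _ rfl (cds_append ix _ _).symm)
      | ab hr _ ih =>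
        rintro A B h1 rfl
        obtain ⟨⟨x, y⟩, hxy, he⟩ := hr
        obtain ⟨rfl, rfl⟩ := Prod.mk.inj he
        obtain ⟨A', rfl, rfl⟩ := cds_pre ix hix _ _ _ h1
        exact .ab hxy (ih _ _ rfl (cds_append ix _ _).symm)
      | ba hr _ ih =>
        rintro A B rfl h1
        obtain ⟨⟨x, y⟩, hxy, he⟩ := hr
        obtain ⟨rfl, rfl⟩ := Prod.mk.inj he
        obtain ⟨B', rfl, rfl⟩ := cds_pre ix hix _ _ _ h1
        exact .ba hxy (ih _ _ (cds_append ix _ _).symm rfl)
    exact key _ _ h A B rfl rfl
  · intro h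
    induction h with
    | done => exact .done
    | padA _ ih => rw [cds_append] at ih; exact .padA ih
    | padB _ ih => rw [cds_append] at ih; exact .padB ih
    | ab hr _ ih => rw [cds_append] at ih ⊢; exact .ab ⟨_, hr, rfl⟩ ih
    | ba hr _ ih => rw [cds_append] at ih ⊢; exact .ba ⟨_, hr, rfl⟩ ih

end coding

inductive Sy (Γ Q : Type)
  | st (q : Q)
  | mid (q : Q) (u : Option Γ) (d : Bool)
  | tp (a : Γ)
  | hA
  | hB
  deriving Fintype

section tm

variable {Γ Λ : Type} [Inhabited Γ] [Inhabited Λ] (M : TM0.Machine Γ Λ) (S : Finset Λ)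

inductive RAB : List (Sy Γ S) × List (Sy Γ S) → Prop
  | halt (q : S) (a) : M q a = none → RAB ([.st q, .tp a], [.hB])
  | wr (q q' : S) (a b) : M q a = some ((q' : Λ), TM0.Stmt.write b) →
      RAB ([.st q, .tp a], [.mid q' (some b) false])
  | rt (q q' : S) (a) : M q a = some ((q' : Λ), TM0.Stmt.move Dir.right) →
      RAB ([.st q, .tp a], [.mid q' none false, .tp a])
  | lf (q q' : S) (a) : M q a = some ((q' : Λ), TM0.Stmt.move Dir.left) →
      RAB ([.st q, .tp a], [.mid q' (some a) true])
  | c1 (a) : RAB ([.hA, .tp a], [.hB])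
  | c2 : RAB ([.hA], [])

inductive RBA : List (Sy Γ S) × List (Sy Γ S) → Prop
  | f (q : S) (u : Option Γ) : RBA ([.mid q u false], .st q :: u.toList.map .tp)
  | t (q : S) (u : Option Γ) (c) : RBA ([.mid q u true, .tp c], .st q :: .tp c :: u.toList.map .tp)
  | c1 (a) : RBA ([.hB, .tp a], [.hA])
  | c2 : RBA ([.hB], [.hA])

omit [Inhabited Γ] [Inhabited Λ] in
lemma finite_of_len [Finite Γ] (R : Set (List (Sy Γ S) × List (Sy Γ S)))
    (h : ∀ r ∈ R, r.1.length ≤ 3 ∧ r.2.length ≤ 3) : R.Finite := by
  have := Fintype.ofFinite Γ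
  exact ((List.finite_length_le (Sy Γ S) 3).prod (List.finite_length_le (Sy Γ S) 3)).subset h

def Halts (q : Λ) (T : Tape Γ) : Prop := (eval (TM0.step M) ⟨q, T⟩).Dom

lemma mk₂_pad_right (L R : List Γ) : Tape.mk₂ L (R ++ [default]) = Tape.mk₂ L R := by
  unfold Tape.mk₂
  congr 1
  exact Quotient.sound' (Or.inr ⟨1, rfl⟩)

lemma mk₂_pad_left (L R : List Γ) : Tape.mk₂ (L ++ [default]) R = Tape.mk₂ L R := by
  unfold Tape.mk₂
  congr 1
  exact Quotient.sound' (Or.inr ⟨1, rfl⟩)

lemma halts_of_step {q q' : Λ} {T T' : Tape Γ} (h : TM0.step M ⟨q, T⟩ = some ⟨q', T'⟩) :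
    Halts M q T ↔ Halts M q' T' := by
  unfold Halts
  rw [reaches_eval (Relation.ReflTransGen.single h)]

lemma step_wr {q q' : Λ} {a b : Γ} (L R : List Γ) (h : M q a = some (q', .write b)) :
    TM0.step M ⟨q, Tape.mk₂ L (a :: R)⟩ = some ⟨q', Tape.mk₂ L (b :: R)⟩ := by
  simp [TM0.step, Tape.mk₂, h]

lemma step_rt {q q' : Λ} {a : Γ} (L R : List Γ) (h : M q a = some (q', .move .right)) :
    TM0.step M ⟨q, Tape.mk₂ L (a :: R)⟩ = some ⟨q', Tape.mk₂ (a :: L) R⟩ := by
  simp [TM0.step, Tape.mk₂, h]

lemma step_lf {q q' : Λ} {a : Γ} (L R : List Γ) (h : M q a = some (q', .move .left)) :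
    TM0.step M ⟨q, Tape.mk₂ L (a :: R)⟩ = some ⟨q', (Tape.mk₂ L (a :: R)).move .left⟩ := by
  simp [TM0.step, Tape.mk₂, h]

lemma move_lf (c : Γ) (L R : List Γ) :
    (Tape.mk₂ (c :: L) R).move .left = Tape.mk₂ L (c :: R) := by
  simp [Tape.mk₂]

lemma sound {A B : List (Sy Γ S)} (h : Acc {r | RAB M S r} {r | RBA S r} [.tp default] A B) :
    (∀ (q : S) (L R : List Γ), A = .st q :: R.map .tp → B = L.map .tp →
      Halts M q (Tape.mk₂ L R)) ∧
    (∀ (q : S) u d (L R : List Γ), A = R.map .tp → B = .mid q u d :: L.map .tp →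
      Halts M q (bif d then (Tape.mk₂ L (u.toList ++ R)).move .left
        else Tape.mk₂ L (u.toList ++ R))) := by
  induction h with
  | done => exact ⟨by simp, by simp⟩
  | padA _ ih =>
    refine ⟨?_, ?_⟩
    · rintro q L R rfl rfl
      have := ih.1 q L (R ++ [default]) (by simp) rfl
      rwa [mk₂_pad_right] at this
    · rintro q u d L R rfl rfl
      have := ih.2 q u d L (R ++ [default]) (by simp) rfl
      rwa [← List.append_assoc, mk₂_pad_right] at this
  | padB _ ih =>
    refine ⟨?_, ?_⟩
    · rintro q L R rfl rfl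
      have := ih.1 q (L ++ [default]) R rfl (by simp)
      rwa [mk₂_pad_left] at this
    · rintro q u d L R rfl rfl
      have := ih.2 q u d (L ++ [default]) R rfl (by simp)
      rwa [mk₂_pad_left] at this
  | @ab x y A B hr _ ih =>
    refine ⟨?_, ?_⟩
    · rintro q L R h1 rfl
      have aux : ∀ (q0 : S) a, [Sy.st q0, Sy.tp a] ++ A = .st q :: R.map .tp →
          q0 = q ∧ ∃ R', R = a :: R' ∧ A = R'.map .tp := by
        intro q0 a h
        cases R with
        | nil => simp at h
        | cons b R' =>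
          simp only [List.cons_append, List.nil_append, List.map_cons, List.cons.injEq,
            Sy.st.injEq, Sy.tp.injEq] at h
          exact ⟨h.1, R', by rw [h.2.1], h.2.2⟩
      cases hr with
      | halt q0 a hM =>
        obtain ⟨rfl, R', rfl, rfl⟩ := aux _ _ h1
        exact Part.dom_iff_mem.mpr ⟨_, mem_eval.mpr ⟨.refl, by simp [TM0.step, Tape.mk₂, hM]⟩⟩
      | wr q0 q' a b hM =>
        obtain ⟨rfl, R', rfl, rfl⟩ := aux _ _ h1
        rw [halts_of_step M (step_wr M L R' hM)]
        exact ih.2 q' (some b) false L R' rfl rfl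
      | rt q0 q' a hM =>
        obtain ⟨rfl, R', rfl, rfl⟩ := aux _ _ h1
        rw [halts_of_step M (step_rt M L R' hM)]
        exact ih.2 q' none false (a :: L) R' rfl rfl
      | lf q0 q' a hM =>
        obtain ⟨rfl, R', rfl, rfl⟩ := aux _ _ h1
        rw [halts_of_step M (step_lf M L R' hM)]
        exact ih.2 q' (some a) true L R' rfl rfl
      | c1 a => simp at h1
      | c2 => simp at h1
    · rintro q u d L R h1 rfl
      exfalso
      cases hr <;> cases R <;> simp at h1
  | @ba x y A B hr _ ih =>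
    refine ⟨?_, ?_⟩
    · rintro q L R rfl h1
      exfalso
      cases hr <;> cases L <;> simp at h1
    · rintro q u d L R rfl h1
      cases hr with
      | f q0 u0 =>
        simp only [List.cons_append, List.nil_append, List.cons.injEq, Sy.mid.injEq] at h1
        obtain ⟨⟨rfl, rfl, rfl⟩, rfl⟩ := h1
        exact ih.1 q0 L (u0.toList ++ R) (by simp) rfl
      | t q0 u0 c =>
        cases L with
        | nil => simp at h1
        | cons c' L' =>
          simp only [List.cons_append, List.nil_append, List.map_cons, List.cons.injEq,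
            Sy.mid.injEq, Sy.tp.injEq] at h1
          obtain ⟨⟨rfl, rfl, rfl⟩, rfl, rfl⟩ := h1
          simp only [cond_true, move_lf]
          exact ih.1 q0 L' (c :: u0.toList ++ R) (by simp) rfl
      | c1 a => simp at h1
      | c2 => simp at h1

lemma clean (L R : List Γ) :
    Acc {r | RAB M S r} {r | RBA S r} [.tp default] (R.map .tp) (.hB :: L.map .tp) := by
  have h1 : ∀ R : List Γ,
      Acc {r | RAB M S r} {r | RBA S r} [.tp default] (R.map .tp) [.hB] := by
    intro R
    induction R with
    | nil => exact .ba (B := []) RBA.c2 (.ab (A := []) RAB.c2 .done)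
    | cons a R ih => exact .ba (B := []) RBA.c2 (.ab (x := [_, _]) (y := [.hB]) (A := R.map .tp) (B := [])
        (AB := {r | RAB M S r}) (RAB.c1 a) ih)
  induction L generalizing R with
  | nil => exact h1 R
  | cons c L ih =>
    exact .ba (RBA.c1 c) (.padA (by
      cases R with
      | nil => exact .ab (A := []) (RAB.c1 default) (ih [])
      | cons a R =>
        have := ih (R ++ [default])
        rw [List.map_append] at this
        exact .ab (x := [_, _]) (y := [.hB]) (A := R.map .tp ++ [.tp default]) (B := L.map .tp)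
          (AB := {r | RAB M S r}) (RAB.c1 a) this))

lemma complete (hS : TM0.Supports M (S : Set Λ)) {c c' : TM0.Cfg Γ Λ}
    (h : Reaches (TM0.step M) c c') (hc' : TM0.step M c' = none) :
    ∀ (q : S) (L R : List Γ), c = ⟨q, Tape.mk₂ L R⟩ →
      Acc {r | RAB M S r} {r | RBA S r} [.tp default] (.st q :: R.map .tp) (L.map .tp) := by
  have red : ∀ (q : S) (c : TM0.Cfg Γ Λ), (∀ a c0 L R, c = ⟨q, Tape.mk₂ (c0 :: L) (a :: R)⟩ →
      Acc {r | RAB M S r} {r | RBA S r} [.tp default] (.st q :: (a :: R).map .tp)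
        ((c0 :: L).map .tp)) → ∀ L R, c = ⟨q, Tape.mk₂ L R⟩ →
      Acc {r | RAB M S r} {r | RBA S r} [.tp default] (.st q :: R.map .tp) (L.map .tp) := by
    intro q c H L R hc
    apply Acc.padA
    apply Acc.padB
    rw [← mk₂_pad_left, ← mk₂_pad_right] at hc
    obtain ⟨a, R', hR⟩ : ∃ a R', R ++ [default] = a :: R' := by cases R <;> simp
    obtain ⟨c0, L', hL⟩ : ∃ a R', L ++ [default] = a :: R' := by cases L <;> simp
    have := H a c0 L' R' (by rw [hc, hR, hL])
    rw [← hR, ← hL] at this
    simpa using this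
  induction h using Relation.ReflTransGen.head_induction_on with
  | refl =>
    intro q
    apply red
    rintro a c0 L R rfl
    have : M q a = none := by simpa [TM0.step, Tape.mk₂] using hc'
    exact .ab (RAB.halt q a this) (clean M S (c0 :: L) R)
  | @head c d hcd _ ih =>
    intro q
    apply red
    rintro a c0 L R rfl
    cases hM : M q a with
    | none => simp [TM0.step, Tape.mk₂, hM] at hcd
    | some r =>
      obtain ⟨q', s⟩ := r
      have hq' : q' ∈ S := hS.2 hM q.2
      rcases s with (_ | _) | b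
      · rw [step_lf M _ _ hM, move_lf] at hcd
        have := ih ⟨q', hq'⟩ _ _ (Option.some.inj hcd).symm
        exact .ab (RAB.lf q ⟨q', hq'⟩ a hM) (.ba (x := [_, _]) (B := L.map .tp) (RBA.t ⟨q', hq'⟩ (some a) c0) this)
      · rw [step_rt M _ _ hM] at hcd
        have := ih ⟨q', hq'⟩ _ _ (Option.some.inj hcd).symm
        exact .ab (RAB.rt q ⟨q', hq'⟩ a hM) (.ba (x := [_]) (RBA.f ⟨q', hq'⟩ none) this)
      · rw [step_wr M _ _ hM] at hcd
        have := ih ⟨q', hq'⟩ _ _ (Option.some.inj hcd).symm
        exact .ab (RAB.wr q ⟨q', hq'⟩ a b hM) (.ba (x := [_]) (RBA.f ⟨q', hq'⟩ (some b)) this)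

end tm

/-- Every r.e. language is accepted by a finite binary two-stack transfer system. -/
theorem re_to_twostack {T : Type} [Primcodable T] (p : List T → Prop) (hp : REPred p) :
    ∃ (AB BA : Set (List Bool × List Bool)) (pad pre : List Bool) (ψ : T → List Bool),
      AB.Finite ∧ BA.Finite ∧ ∀ w, p w ↔ Acc AB BA pad (pre ++ w.flatMap ψ) [] := by
  classical
  obtain ⟨Γ, Λ, _, _, _, M, S, pre, ψ, hS, h⟩ := re_to_tm0 p hp
  let ix : Sy Γ S → ℕ := fun s => (Fintype.equivFin _ s : ℕ)
  have hix : Function.Injective ix := fun a b h => (Fintype.equivFin _).injective (Fin.ext h)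
  refine ⟨Prod.map (cds ix) (cds ix) '' {r | RAB M S r}, Prod.map (cds ix) (cds ix) '' {r | RBA S r},
    cds ix [.tp default], cds ix (.st ⟨default, hS.1⟩ :: pre.map .tp),
    fun a => cds ix ((ψ a).map .tp), (finite_of_len S _ ?_).image _, (finite_of_len S _ ?_).image _,
    fun w => ?_⟩
  · intro r hr; cases hr <;> simp
  · intro r hr
    cases hr with
    | f q u => cases u <;> simp
    | t q u c => cases u <;> simp
    | c1 a => simp
    | c2 => simp
  · have e : cds ix (.st ⟨default, hS.1⟩ :: pre.map .tp) ++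
        w.flatMap (fun a => cds ix ((ψ a).map .tp)) =
        cds ix (.st ⟨default, hS.1⟩ :: (pre ++ w.flatMap ψ).map .tp) := by
      simp [cds, List.flatMap_assoc, List.map_flatMap]
    rw [e, h w]
    refine Iff.trans ?_ (acc_cds ix hix _ _ _ _ []).symm
    constructor
    · intro hd
      obtain ⟨c', hc'⟩ := Part.dom_iff_mem.mp hd
      obtain ⟨h1, h2⟩ := mem_eval.mp hc'
      exact complete M S hS h1 h2 ⟨default, hS.1⟩ [] _ rfl
    · intro ha
      exact (sound M S ha).1 ⟨default, hS.1⟩ [] _ rfl rfl

end Pool.Agent.Lib.helper83
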